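import Mathlib
import Pool.Agent.Y638.RF.ZeroSum

/-!
# Integer 3SUM: branching programs which test real formulas

The input consists of `2 n` distinct integers of absolute value at most `(2 n) ^ 3`; the question is
whether three of them (at different places) have the sum zero. The items of the input are the first
`n` numbers and the list of the other `n` numbers.

A real formula (`Fml`) is built from real constants, arbitrary real functions of one item, and
arbitrary real functions of `w` words of length `c log₂ (2 n)`, where each word is an arbitrary
function of one item, by sums, products, sign tests `pos` (with the values `0`, `1`), and gates `sym`
of any fan-in whose value is an arbitrary real function of the number of positive inputs. So it may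
contain threshold gates of unbounded fan-in with arbitrary real weights, gates which test the sign of
arithmetic formulas, and arbitrary symmetric gates, nested in any way, and the intermediate values may
be of any size. It accepts if its value is positive. Its size is the number of leaves (constants are
free) plus the number of wires which lead to gates `sym`. In a branching program (`Program`) every
inner node tests whether a real formula accepts; its size is the number of inner nodes plus the sizes
of all these formulas. A formula is a program with one inner node.

We show that random branching programs of size at most `s` with error probability at most `1 / 3` need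
`n ^ 2 ≤ 14000 c w ^ 2 s`.

Proof. Each of the first `n` numbers can ask for about `n log₂ n / 7` bits which are encoded in the
list of the last `n` numbers (helper697, helper457). The functions of this number which arise when the
other items are fixed are counted by means of Warren's theorem (`Pool.Agent.Y638.RF.Core`; Nechiporuk's
method).
-/

set_option autoImplicit false

namespace Pool.Agent.Results.MP_8f87b2_lc.RealPrograms

open Pool.Agent.TH697.Form (IsProb)
open Pool.Agent.TH697.Row (ApproximatesOn)
open Pool.Agent.TH697.Form.ThreeSum (Item Valid)
open Pool.Agent.TH457.Ary.ZeroSum (zeroSum)
open Pool.Agent.Y638.RF (Program)

theorem result : ∀ n c w : ℕ, 1000 ≤ n → 1 ≤ c → 1 ≤ w →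
    ∀ (Ω : Type) [Fintype Ω] (μ : Ω → ℝ), IsProb μ →
      ∀ (s : ℕ) (B : Ω → Program (Option (Fin n)) (Item n n) w ((2 * n) ^ c) s),
        ApproximatesOn μ (fun ω => (B ω).eval) (Valid n n) (zeroSum n) →
        (n : ℝ) ^ 2 ≤ 14000 * c * w ^ 2 * s :=
  fun _ _ _ hn hc hw _ _ μ hμ s B hB =>
    Pool.Agent.Y638.RF.ZeroSum.program_bound hn hc hw μ hμ s B hB

end Pool.Agent.Results.MP_8f87b2_lc.RealPrograms
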