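import Pool.Agent.R643.WZb

/-!
# Zero-sum 3SUM on sorted lists by word circuits: number of reads and treewidth

The input is an INCREASING list of `m` integers between `-m²` and `m²`; we ask if three numbers at
different places have sum zero. We consider straight-line programs for such inputs (`WCirc`): each
of the gates holds a word (an element of a finite set `Z`, for instance the words of `w` bits), and
computes an ARBITRARY function of at most `κ` items of the list and words of earlier gates. The
parameters are

* the number of reads `C.reads`: the number of wires from items to gates; this is a lower bound for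
  the running time,
* the treewidth `θ` of the graph of the gates (whose edges are the wires between gates; the items
  are deleted). A program with few registers has small treewidth, but a circuit of small treewidth
  may use arbitrarily many words at the same time.

**Result.** If a circuit with `C.reads ≤ r m` decides the question for sorted lists, and the words
(and the numbers `0, …, m - 1`) fit in `w` bits, then
`m ^ (m / 2 ^ (24 r + 1)) ≤ 2 ^ (w · 10000 r² (κ + 1) (θ + 1)) + 1`.
So with treewidth at most `m ^ (1 - ε)` one needs `Ω (ε m log m)` reads; this is more than the linear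
number of reads of an algorithm that looks at each number `O (1)` times, although the list is
already sorted, so that the bound does not come from sorting.

**Proof.** The circuit is cut into `O (r²)` parts with few reads in each of them by the removal of
`O (r² (θ + 1))` gates; by averaging there are a set `A` of places in the upper half of the list and
a set `E` of places in the lower half, both of size `k = m / 2 ^ O (r)`, and a division of the parts
into two sides such that the places in `A` are read on the first side only, and those of `E` on the
second side only (this is the starting library `Pool.Agent.Y631.Wc`). New is the coding: with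
`R = q + m + 1` the `j`-th place of `A` (from below) gets the number
`11 (R j + m + 1 + a_j) + 1`, the `j`-th place of `E` (from above) the number
`-11 (T + R j + m + 1 + b_j) - 1`, another place `s` of the upper half the number `11 T`, and all
other places `i` numbers that are `3` modulo `11` and keep the list increasing for all values of
`a_j, b_j < q`; here `T` depends only on `s` and `A`. Modulo `11` only a place of `A`, a place of
`E` and `s` can have sum zero, so there is a solution iff `a_j = b_j` for some `j`.
-/

set_option autoImplicit false

namespace Pool.Agent.Results.MP_8f87b2_lc.SortedListsTreewidthTimesReads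

open Pool.Agent.Y631.Wc Pool.Agent.R643.WZ

/-- (A) Let `C` be a word circuit for lists of `m` integers, whose gates have fan-in at most `κ` and
values in `Z`, with at most `r m` reads, and of treewidth at most `θ`. Let `2 ≤ q ≤ L`, `q ≤ m` and
`|Z| ≤ L`.

1. If `C` (nondeterministic) accepts exactly the increasing lists without three numbers with sum
   zero then `2 ^ (m / 2 ^ (24 r + 1)) ≤ L ^ (10000 r² (κ + 1) (θ + 1))`.
2. If moreover `C` has at most one accepting computation for each input (which holds if the gates
   compute functions) then `q ^ (m / 2 ^ (24 r + 1)) ≤ L ^ (10000 r² (κ + 1) (θ + 1))`.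
3. If `C` has at most one accepting computation for each input and accepts exactly the increasing
   lists with three numbers with sum zero then
   `q ^ (m / 2 ^ (24 r + 1)) ≤ L ^ (10000 r² (κ + 1) (θ + 1)) + 1`.

The circuit has to be correct only for increasing lists of integers between `-m²` and `m²`.

(B) For all `c`, `κ` and `0 < ε ≤ 1` and all large `m`: if random deterministic (or unambiguous)
circuits of fan-in `κ` whose gates have at most `m ^ c` values (words of `c log m` bits), of
treewidth at most `m ^ (1 - ε)`, always decide correctly if an increasing list of `m` integers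
between `-m²` and `m²` has three with sum zero, then the expected number of reads is at least
`(ε / 30) m log₂ m`. -/
theorem result :
    (∀ {r κ θ m q L : ℕ} (_ : 1 ≤ r) (_ : 2 ≤ q) (_ : q ≤ L) (_ : q ≤ m)
      {Z : Type} [Fintype Z] (_ : Fintype.card Z ≤ L) (C : WCirc (Fin m) ℤ Z)
      (_ : C.FanIn κ) (_ : C.TreewidthLE θ) (_ : C.reads ≤ r * m),
      ((∀ x, IsSorted x → (C.Accepts x ↔ ¬ HasZero x)) →
        2 ^ (m / 2 ^ (24 * r + 1)) ≤ L ^ (10000 * r ^ 2 * (κ + 1) * (θ + 1))) ∧
      (C.Unambiguous → (∀ x, IsSorted x → (C.Accepts x ↔ ¬ HasZero x)) →
        q ^ (m / 2 ^ (24 * r + 1)) ≤ L ^ (10000 * r ^ 2 * (κ + 1) * (θ + 1))) ∧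
      (C.Unambiguous → (∀ x, IsSorted x → (C.Accepts x ↔ HasZero x)) →
        q ^ (m / 2 ^ (24 * r + 1)) ≤ L ^ (10000 * r ^ 2 * (κ + 1) * (θ + 1)) + 1)) ∧
    ∀ (c κ : ℕ) (ε : ℝ), 0 < ε → ε ≤ 1 → ∃ m₀ : ℕ, ∀ m ≥ m₀, ∀ (Z : Type) [Fintype Z],
      Fintype.card Z ≤ m ^ c → ∀ (Ω : Type) [Fintype Ω] (p : Ω → ℝ), (∀ ω, 0 ≤ p ω) →
      ∑ ω, p ω = 1 → ∀ (C : Ω → WCirc (Fin m) ℤ Z) (θ : ℕ), (θ : ℝ) ≤ (m : ℝ) ^ (1 - ε) →
        (∀ ω, (C ω).FanIn κ ∧ (C ω).TreewidthLE θ ∧ (C ω).Unambiguous ∧
          ((∀ x, IsSorted x → ((C ω).Accepts x ↔ HasZero x)) ∨
            (∀ x, IsSorted x → ((C ω).Accepts x ↔ ¬ HasZero x)))) →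
        ε / 30 * (m * Real.logb 2 m) ≤ ∑ ω, p ω * (C ω).reads :=
  ⟨fun hr hq hqL hqm _ _ hZ C hκ hθ hR => zero_bounds hr hq hqL hqm hZ C hκ hθ hR, zero_random⟩

end Pool.Agent.Results.MP_8f87b2_lc.SortedListsTreewidthTimesReads
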