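import Pool.Agent.R562.WFZ

/-!
# Integer 3SUM: branching programs which test formulas over machine words

The input consists of `2 n` distinct integers of absolute value at most `(2 n) ^ 3`; are there three
numbers (at different places) with sum zero? The items of the input are each of the first `n` numbers,
and the list of the last `n` numbers.

The formulas (`Fml`) compute with integers: they are built from constants, arbitrary functions of one
item, and arbitrary functions of `w` words of length `c log₂ (2 n)`, where each word is an arbitrary
function of one item, by sums, products, maxima, minima, sign tests `pos` (with the values `0`, `1`),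
and gates `sym` of any fan-in whose value is an arbitrary function of the number of positive inputs.
All numbers which occur have absolute value at most `(2 n) ^ v`. A formula accepts if its value is
positive. Its size is the number of leaves (constants are free) plus the number of wires which lead to
gates `sym`. In a branching program (`Program`) every inner node tests whether a formula accepts; its
size is the number of inner nodes plus the sizes of all these formulas.

We show that random branching programs of size at most `s` with error probability at most `1 / 3` need
`n ^ 2 ≤ 6000 w (v + c w) s`.

Proof. Each of the first `n` numbers can ask for about `n log₂ n / 7` bits which are encoded in the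
list of the last `n` numbers (helper697; the sign of half of the list is changed, as by helper457). The
functions of this number which arise when the other items are fixed are counted as in
`Pool.Agent.Y638.WF` (Nechiporuk's method).
-/

set_option autoImplicit false

namespace Pool.Agent.Results.MP_8f87b2_lc.WordPrograms

open Pool.Agent.TH697.Form (IsProb)
open Pool.Agent.TH697.Row (ApproximatesOn)
open Pool.Agent.TH697.Form.ThreeSum (Item Valid)
open Pool.Agent.TH457.Ary.ZeroSum (zeroSum)
open Pool.Agent.Y638.WF (Program)

theorem result : ∀ n c w v : ℕ, 400 ≤ n → 1 ≤ c → 1 ≤ w → 1 ≤ v →
    ∀ (Ω : Type) [Fintype Ω] (μ : Ω → ℝ), IsProb μ →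
      ∀ (s : ℕ) (B : Ω → Program (Option (Fin n)) (Item n n) w ((2 * n) ^ c) ((2 * n) ^ v)
          (Valid n n) s),
        ApproximatesOn μ (fun ω => (B ω).eval) (Valid n n) (zeroSum n) →
        (n : ℝ) ^ 2 ≤ 6000 * w * (v + c * w) * s :=
  fun _ _ _ _ hn hc hw hv _ _ μ hμ s B hB =>
    Pool.Agent.R562.WFZ.bound hn hc hw hv μ hμ s B hB

end Pool.Agent.Results.MP_8f87b2_lc.WordPrograms
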